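import Pool.Agent.Lib.MP_6cd1fc_ag.ExFinal

/-!
# Graded motivic stabilization fails

Over every finite field `k` there are a graded space (a point in degree `1`, the affine line in
degree `3`, and nothing in the other degrees), `r = 1`, `n = 2` and a motivic measure (the identity
of the completed Grothendieck ring) for which the target series converges, with `1 + S = 0`, but
the ratio `μ(𝒵_2^d) / μ(𝒳_d)` does not converge to `μ(1 + S)`, and in fact has no limit at all.
-/

open Filter Topology Pool.Agent.Lib.MP_6cd1fc_ag

namespace Pool.Agent.Results.MP_6cd1fc_ag.Disproof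

/-- The stabilisation statement fails over every finite field, already for `r = 1`, `n = 2` and a
convergent target series (with `1 + S = 0`): the ratio has no limit. -/
theorem result (k : Type) [Field k] [Finite k] : ∃ D : Setup k, D.r = 1 ∧ D.n = 2 ∧
    HasSum D.term (-1) ∧ ¬ D.Stabilizes ∧ ∀ x : D.R, ¬ Tendsto D.ratio atTop (𝓝 x) := by
  obtain ⟨p, hp, hp', hK⟩ := exists_large k
  have h := exSetup_not_tendsto (k := k) (fun s => FiniteField.Extension k p (s + 1)) hK
  refine ⟨exSetup k, rfl, rfl, exSetup_hasSum, ?_, h⟩
  rintro ⟨S, -, hT⟩
  exact h _ hT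

end Pool.Agent.Results.MP_6cd1fc_ag.Disproof
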